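import Pool.Agent.P.MP_3c2f8c_gt.Ex.Bridge

namespace Pool.Agent.Old.MP_3c2f8c_gt.E6NonComm

open Pool.Agent.P.MP_3c2f8c_gt.St

theorem result : ∃ Γ₁ Γ₂ : Subgroup E6,
    IsClosedMfd Γ₁ ∧ IsClosedMfd Γ₂ ∧ IsArith Γ₁ ∧ IsArith Γ₂ ∧
      Isospectral Γ₁ Γ₂ ∧ ¬ WideComm Γ₁ Γ₂ :=
  main

end Pool.Agent.Old.MP_3c2f8c_gt.E6NonComm
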