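import Pool.Agent.P.MP_3c2f8c_gt.Gl.Main

namespace Pool.Agent.Old.MP_3c2f8c_gt.HypNonComm

open Pool.Agent.P.MP_3c2f8c_gt

theorem result (m : ℕ) (hm : 1 ≤ m) : ∃ Γ₁ Γ₂ : Subgroup (Oplus (4 * m + 1)),
    IsClosedMfd Γ₁ ∧ IsClosedMfd Γ₂ ∧ IsArithOuter m Γ₁ ∧ IsArithOuter m Γ₂ ∧
      Isospectral Γ₁ Γ₂ ∧ ¬ WideComm Γ₁ Γ₂ :=
  main m hm

end Pool.Agent.Old.MP_3c2f8c_gt.HypNonComm
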