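import Pool.Agent.P.MP_3c2f8c_gt.AO.XC

namespace Pool.Agent.Old.MP_3c2f8c_gt.OuterA

open Pool.Agent.P.MP_3c2f8c_gt

theorem result (n : ℕ) (hn : 2 ≤ n) : ∃ Γ₁ Γ₂ : Subgroup (SA.Aut n),
    SA.IsMfd Γ₁ ∧ SA.IsMfd Γ₂ ∧ SA.IsArithOuter Γ₁ ∧ SA.IsArithOuter Γ₂ ∧
      SA.Isospectral Γ₁ Γ₂ ∧ ¬ SA.WideComm Γ₁ Γ₂ :=
  AO.mainX hn

end Pool.Agent.Old.MP_3c2f8c_gt.OuterA
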